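import Pool.Agent.L7h68.SF.Per
import Pool.Agent.Results.MP_abb0cc_co.PairsModSeven

set_option autoImplicit false

/-!
# MP_abb0cc_co: unions of residue classes

The sequence found for `n = 2` and two colours (the positive integers congruent to 1, 2, 4 modulo 7) is
a union of residue classes. Eventually periodic sets give nothing else: for `n, t ≥ 2` there is an
eventually periodic sequence of integers which is `(n + 1)`-subsum-free and `(n, t)`-Ramsey if and only
if `n = t = 2`.

Proof. Let `A` be the set of the residues `a` modulo `N` such that all large integers congruent to `a`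
are in `X`. If `a, 2 a, ..., n a` are in `A`, then `(n + 1) a` is not (otherwise `n + 1` large
integers congruent to `a` have all sums in `X`); in particular `0` is not in `A`. If all integers are
coloured according to their residues, a sequence as in the Ramsey property has (a subsequence with) a
constant residue `a`; then `a, 2 a, ..., n a` are in `A` and have the same colour. For `n = 3` colour
`a` by `1` if `a, 2 a, 3 a` are in `A`, and by `0` otherwise: as `4 a` is not in `A`, `2 a` has another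
colour than `a`. For `n ≥ 4` there is a colouring with two colours such that `a, 2 a, 4 a` do not have
the same colour, and for `n = 2` one with three colours such that `a` and `2 a` have different colours:
they depend on the first run of equal digits of `a / N` in base two (`Pool.Agent.L7h68.SF.Per`).
-/

namespace Pool.Agent.Results.MP_abb0cc_co.PeriodicSets

open Pool.Agent.L7h68.SF.Per

section

variable {X : Set ℤ} {N : ℕ} {M : ℤ}

/-- All integers `≥ M` congruent to `a` are in `X`. -/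
def Res (X : Set ℤ) (N : ℕ) (M a : ℤ) : Prop := ∀ y : ℤ, M ≤ y → (N : ℤ) ∣ y - a → y ∈ X

theorem per_mul (hper : ∀ y : ℤ, M ≤ y → (y ∈ X ↔ y + N ∈ X)) (y : ℤ) (hy : M ≤ y) (q : ℕ) :
    y ∈ X ↔ y + N * q ∈ X := by
  induction q with
  | zero => simp
  | succ q ih =>
    rw [ih, hper (y + N * q) (by have : (0 : ℤ) ≤ (N : ℤ) * q := by positivity
                                 omega)]
    push_cast
    rw [mul_add, mul_one, add_assoc]

theorem res_of_mem (hN : 0 < N) (hper : ∀ y : ℤ, M ≤ y → (y ∈ X ↔ y + N ∈ X)) {y a : ℤ}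
    (hy : M ≤ y) (hyX : y ∈ X) (ha : (N : ℤ) ∣ y - a) : Res X N M a := by
  intro z hz hza
  have h1 : (N : ℤ) ∣ z - y := by
    have := dvd_sub hza ha
    rwa [sub_sub_sub_cancel_right] at this
  obtain ⟨q, hq⟩ := h1
  have hN' : (0 : ℤ) < N := by exact_mod_cast hN
  rcases le_total 0 q with h | h
  · obtain ⟨p, rfl⟩ := Int.eq_ofNat_of_zero_le h
    have e : z = y + N * p := by omega
    rw [e]
    exact (per_mul hper y hy p).1 hyX
  · obtain ⟨p, hp⟩ := Int.eq_ofNat_of_zero_le (show 0 ≤ -q by omega)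
    have e : y = z + N * p := by
      rw [← hp, mul_neg]
      omega
    rw [per_mul hper z hz p, ← e]
    exact hyX

theorem Res.congr {a b : ℤ} (h : Res X N M a) (hab : (N : ℤ) ∣ a - b) : Res X N M b := by
  intro y hy hb
  refine h y hy ?_
  have := dvd_sub hb hab
  have e : y - b - (a - b) = y - a := by ring
  rwa [e] at this

end

/-- `(n + 1) a` is not in `A`. -/
theorem not_res {x : ℕ → ℤ} {N : ℕ} {M : ℤ} (hN : 0 < N) {n : ℕ} (hn : 1 ≤ n)
    (hfree : ∀ s : Finset ℕ, s.card = n + 1 →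
      ∃ r ⊆ s, r.Nonempty ∧ (∑ i ∈ r, x i) ∉ Set.range x) (a : ℤ)
    (ha : ∀ j : ℕ, 1 ≤ j → j ≤ n → Res (Set.range x) N M (j * a)) :
    ¬ Res (Set.range x) N M ((n + 1 : ℕ) * a) := by
  classical
  intro hlast
  have hN' : (0 : ℤ) < N := by exact_mod_cast hN
  have hall : ∀ j : ℕ, 1 ≤ j → j ≤ n + 1 → Res (Set.range x) N M (j * a) := by
    intro j h1 h2
    rcases Nat.lt_or_ge n j with h | h
    · have : j = n + 1 := by omega
      rw [this]
      exact hlast
    · exact ha j h1 h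
  -- a large number congruent to `a`
  obtain ⟨b, hb1, hb2, hb3⟩ : ∃ b : ℤ, M ≤ b ∧ 0 < b ∧ (N : ℤ) ∣ b - a := by
    refine ⟨a + N * (|a| + |M| + 1), ?_, ?_, ?_⟩
    · have h1 := neg_abs_le a
      have h2 := le_abs_self M
      have h3 : (1 : ℤ) * (|a| + |M| + 1) ≤ N * (|a| + |M| + 1) :=
        mul_le_mul_of_nonneg_right (by omega) (by positivity)
      linarith
    · have h1 := neg_abs_le a
      have h2 := abs_nonneg M
      have h3 : (1 : ℤ) * (|a| + |M| + 1) ≤ N * (|a| + |M| + 1) :=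
        mul_le_mul_of_nonneg_right (by omega) (by positivity)
      linarith
    · rw [add_sub_cancel_left]
      exact dvd_mul_right _ _
  have hz : ∀ i : ℕ, ∃ v : ℕ, x v = b + N * i := by
    intro i
    have h1 := hall 1 le_rfl (by omega) (b + N * i) (by
      have : (0 : ℤ) ≤ (N : ℤ) * i := by positivity
      omega) (by
      rw [Nat.cast_one, one_mul, add_sub_right_comm]
      exact dvd_add hb3 (dvd_mul_right _ _))
    exact h1
  choose v hv using hz
  have hinj : Function.Injective v := by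
    intro i j hij
    have h1 : b + (N : ℤ) * i = b + N * j := by rw [← hv i, ← hv j, hij]
    have h2 : (N : ℤ) * i = N * j := by omega
    have h3 := mul_left_cancel₀ hN'.ne' h2
    exact_mod_cast h3
  obtain ⟨r, hr, hne, hnot⟩ := hfree ((Finset.range (n + 1)).image v) (by
    rw [Finset.card_image_of_injective _ hinj, Finset.card_range])
  apply hnot
  have hcard : r.card ≤ n + 1 := by
    have := Finset.card_le_card hr
    rwa [Finset.card_image_of_injective _ hinj, Finset.card_range] at this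
  have hterm : ∀ i ∈ r, M ≤ x i ∧ 0 < x i ∧ (N : ℤ) ∣ x i - a := by
    intro i hi
    obtain ⟨j, -, rfl⟩ := Finset.mem_image.1 (hr hi)
    rw [hv j]
    have : (0 : ℤ) ≤ (N : ℤ) * j := by positivity
    refine ⟨by omega, by omega, ?_⟩
    rw [add_sub_right_comm]
    exact dvd_add hb3 (dvd_mul_right _ _)
  refine hall r.card hne.card_pos hcard _ ?_ ?_
  · obtain ⟨i, hi⟩ := hne
    exact (hterm i hi).1.trans (Finset.single_le_sum (f := x) (fun j hj => (hterm j hj).2.1.le) hi)
  · have e : ∑ i ∈ r, x i - (r.card : ℤ) * a = ∑ i ∈ r, (x i - a) := by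
      rw [Finset.sum_sub_distrib, Finset.sum_const, nsmul_eq_mul]
    rw [e]
    exact Finset.dvd_sum fun i hi => (hterm i hi).2.2

/-- The residue which the Ramsey property gives. -/
theorem exists_res {x : ℕ → ℤ} (hx : StrictMono x) {N : ℕ} {M : ℤ} (hN : 0 < N)
    (hper : ∀ y : ℤ, M ≤ y → (y ∈ Set.range x ↔ y + N ∈ Set.range x)) {n t : ℕ}
    (c : ℤ → Fin t) (h : ∃ u : ℕ → ℕ, StrictMono u ∧ ∃ k : Fin t,
      ∀ s : Finset ℕ, s.Nonempty → s.card ≤ n →
        (∑ l ∈ s, x (u l)) ∈ Set.range x ∧ c (∑ l ∈ s, x (u l)) = k) :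
    ∃ (a : ℤ) (k : Fin t), ∀ j : ℕ, 1 ≤ j → j ≤ n → Res (Set.range x) N M (j * a) ∧
      ∃ y : ℤ, (N : ℤ) ∣ y - j * a ∧ c y = k := by
  classical
  obtain ⟨u, hu, k, hk⟩ := h
  have hN' : (0 : ℤ) < N := by exact_mod_cast hN
  have hgrow : ∀ m : ℕ, x 0 + m ≤ x m := by
    intro m
    induction m with
    | zero => simp
    | succ m ih =>
      have := hx (Nat.lt_succ_self m)
      push_cast
      have e : m.succ = m + 1 := rfl
      rw [e] at this
      omega
  obtain ⟨L, hL⟩ : ∃ L : ℕ, ∀ l : ℕ, M ≤ x (u (l + L)) ∧ 0 < x (u (l + L)) := by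
    refine ⟨(M - x 0).toNat + (1 - x 0).toNat, fun l => ?_⟩
    have h1 := hgrow (u (l + ((M - x 0).toNat + (1 - x 0).toNat)))
    have h2 := hu.id_le (l + ((M - x 0).toNat + (1 - x 0).toNat))
    have h3 := Int.self_le_toNat (M - x 0)
    have h4 := Int.self_le_toNat (1 - x 0)
    simp only [id] at h2
    have h5 : ((l + ((M - x 0).toNat + (1 - x 0).toNat) : ℕ) : ℤ) ≤
      (u (l + ((M - x 0).toNat + (1 - x 0).toNat)) : ℕ) := by exact_mod_cast h2
    push_cast at h5
    constructor <;> omega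
  obtain ⟨a', ha'⟩ := Finite.exists_infinite_fiber (fun l : ℕ => (⟨(x (u (l + L)) % N).toNat, by
    have h1 := Int.emod_lt_of_pos (x (u (l + L))) hN'
    have h2 := Int.emod_nonneg (x (u (l + L))) hN'.ne'
    omega⟩ : Fin N))
  have hinf : Set.Infinite ((fun l : ℕ => (⟨(x (u (l + L)) % N).toNat, by
    have h1 := Int.emod_lt_of_pos (x (u (l + L))) hN'
    have h2 := Int.emod_nonneg (x (u (l + L))) hN'.ne'
    omega⟩ : Fin N)) ⁻¹' {a'}) := Set.infinite_coe_iff.1 ha'
  refine ⟨(a' : ℕ), k, fun j h1 h2 => ?_⟩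
  obtain ⟨s, hs, hsc⟩ := hinf.exists_subset_card_eq j
  have hterm : ∀ l ∈ s, (N : ℤ) ∣ x (u (l + L)) - (a' : ℕ) := by
    intro l hl
    have h3 := hs hl
    simp only [Set.mem_preimage, Set.mem_singleton_iff] at h3
    have h4 := congrArg Fin.val h3
    simp only at h4
    have h5 := Int.emod_nonneg (x (u (l + L))) hN'.ne'
    have h6 : ((a' : ℕ) : ℤ) = x (u (l + L)) % N := by
      rw [← h4]
      exact Int.toNat_of_nonneg h5
    rw [h6]
    exact Int.dvd_self_sub_emod
  have hs0 : s.Nonempty := by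
    rw [← Finset.card_pos]
    omega
  have hmap : ∑ l ∈ s.image (· + L), x (u l) = ∑ l ∈ s, x (u (l + L)) :=
    Finset.sum_image fun p _ q _ e => by
      have : p + L = q + L := e
      omega
  obtain ⟨h3, h4⟩ := hk (s.image (· + L)) (hs0.image _) (by
    refine Finset.card_image_le.trans ?_
    omega)
  rw [hmap] at h3 h4
  have hdvd : (N : ℤ) ∣ (∑ l ∈ s, x (u (l + L))) - j * (a' : ℕ) := by
    have e : (∑ l ∈ s, x (u (l + L))) - (j : ℤ) * (a' : ℕ) =
        ∑ l ∈ s, (x (u (l + L)) - (a' : ℕ)) := by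
      rw [Finset.sum_sub_distrib, Finset.sum_const, nsmul_eq_mul, hsc]
    rw [e]
    exact Finset.dvd_sum hterm
  refine ⟨res_of_mem hN hper ?_ h3 hdvd, _, hdvd, h4⟩
  obtain ⟨i, hi⟩ := hs0
  exact (hL i).1.trans (Finset.single_le_sum (f := fun l => x (u (l + L)))
    (fun l _ => (hL l).2.le) hi)

/-- The negative part. Let `x` be a strictly increasing sequence of integers whose set
of terms `X` is eventually periodic with the period `N`: for `y ≥ M` the number `y` is in `X` if and only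
if `y + N` is. If `X` is `(n + 1)`-subsum-free, then for `n ≥ 3` it is not `(n, 2)`-Ramsey, and for
`n = 2` it is not `(2, 3)`-Ramsey. -/
theorem main (x : ℕ → ℤ) (hx : StrictMono x) (N : ℕ) (hN : 0 < N) (M : ℤ)
    (hper : ∀ y : ℤ, M ≤ y → (y ∈ Set.range x ↔ y + N ∈ Set.range x)) (n : ℕ)
    (hfree : ∀ s : Finset ℕ, s.card = n + 1 →
      ∃ r ⊆ s, r.Nonempty ∧ (∑ i ∈ r, x i) ∉ Set.range x) :
    (3 ≤ n → ¬ ∀ c : ℤ → Fin 2, ∃ u : ℕ → ℕ, StrictMono u ∧ ∃ k : Fin 2,
      ∀ s : Finset ℕ, s.Nonempty → s.card ≤ n →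
        (∑ l ∈ s, x (u l)) ∈ Set.range x ∧ c (∑ l ∈ s, x (u l)) = k) ∧
    (n = 2 → ¬ ∀ c : ℤ → Fin 3, ∃ u : ℕ → ℕ, StrictMono u ∧ ∃ k : Fin 3,
      ∀ s : Finset ℕ, s.Nonempty → s.card ≤ 2 →
        (∑ l ∈ s, x (u l)) ∈ Set.range x ∧ c (∑ l ∈ s, x (u l)) = k) := by
  classical
  have hN' : (0 : ℤ) < N := by exact_mod_cast hN
  -- the residue zero is not in `A`
  have hzero : 1 ≤ n → ¬ Res (Set.range x) N M 0 := by
    intro hn h
    refine not_res (M := M) hN hn hfree 0 (fun j _ _ => ?_) ?_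
    · rw [mul_zero]
      exact h
    · rw [mul_zero]
      exact h
  have hpos : 1 ≤ n → ∀ b : ℤ, Res (Set.range x) N M b → (b % N).toNat ≠ 0 := by
    intro hn b hb e
    apply hzero hn
    refine hb.congr ?_
    rw [sub_zero]
    have h1 := Int.emod_nonneg b hN'.ne'
    exact Int.dvd_of_emod_eq_zero (by omega)
  -- residues as natural numbers
  have hlt : ∀ b : ℤ, (b % N).toNat < N := by
    intro b
    have h1 := Int.emod_lt_of_pos b hN'
    have h2 := Int.emod_nonneg b hN'.ne'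
    omega
  have hcong : ∀ b b' : ℤ, (N : ℤ) ∣ b - b' → (b % N).toNat = (b' % N).toNat := by
    intro b b' h
    rw [show b % N = b' % N from (Int.modEq_iff_dvd.2 h).symm]
  have hdbl : ∀ b : ℤ, ((2 * b) % N).toNat = 2 * (b % N).toNat % N := by
    intro b
    have h2 := Int.emod_nonneg b hN'.ne'
    have h3 : (2 * b) % N = (2 * (b % N)) % N := ((Int.mod_modEq b N).mul_left 2).symm
    obtain ⟨r, hr⟩ := Int.eq_ofNat_of_zero_le h2
    rw [h3, hr, Int.toNat_natCast]
    have h4 : (2 * (r : ℤ)) % N = ((2 * r % N : ℕ) : ℤ) := by push_cast; rfl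
    rw [h4, Int.toNat_natCast]
  refine ⟨fun hn H => ?_, fun hn H => ?_⟩
  · rcases Nat.lt_or_ge 3 n with hn4 | hn3
    · -- `n ≥ 4`
      obtain ⟨c, hc⟩ : ∃ c : ℤ → Fin 2, ∀ y, c y = c2 N (y % N).toNat := ⟨_, fun _ => rfl⟩
      obtain ⟨a, k, ha⟩ := exists_res hx hN hper c (H c)
      obtain ⟨r1, y1, d1, e1⟩ := ha 1 le_rfl (by omega)
      obtain ⟨r2, y2, d2, e2⟩ := ha 2 (by omega) (by omega)
      obtain ⟨r4, y4, d4, e4⟩ := ha 4 (by omega) (by omega)
      rw [hc, hcong _ _ d1] at e1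
      rw [hc, hcong _ _ d2] at e2
      rw [hc, hcong _ _ d4] at e4
      have p1 := hpos (by omega) _ r1
      have p2 := hpos (by omega) _ r2
      have p4 := hpos (by omega) _ r4
      push_cast at e1 e2 e4 p1 p2 p4
      have q4 : (4 * a : ℤ) = 2 * (2 * a) := by ring
      rw [one_mul] at e1 p1
      rw [hdbl] at e2 p2
      rw [q4, hdbl, hdbl] at e4 p4
      exact c2_ne (Nat.pos_of_ne_zero p1) (hlt a) p2 p4 (e1.trans e2.symm) (e2.trans e4.symm)
    · -- `n = 3`
      obtain rfl : n = 3 := by omega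
      obtain ⟨c, hc⟩ : ∃ c : ℤ → Fin 2, ∀ y, c y =
          if Res (Set.range x) N M y ∧ Res (Set.range x) N M (2 * y) ∧
            Res (Set.range x) N M (3 * y) then 1 else 0 := ⟨_, fun _ => rfl⟩
      obtain ⟨a, k, ha⟩ := exists_res hx hN hper c (H c)
      obtain ⟨r1, y1, d1, e1⟩ := ha 1 le_rfl (by omega)
      obtain ⟨r2, y2, d2, e2⟩ := ha 2 (by omega) (by omega)
      obtain ⟨r3, y3, d3, e3⟩ := ha 3 (by omega) (by omega)
      have h4 := not_res (M := M) hN (by omega) hfree a fun j h1 h2 => (ha j h1 h2).1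
      push_cast at d1 d2 r1 r2 r3 h4
      rw [one_mul] at d1 r1
      have d1' : (N : ℤ) ∣ a - y1 := by
        rw [← neg_sub]
        exact (dvd_neg).2 d1
      rw [hc, if_pos ⟨r1.congr d1', r2.congr (by rw [← mul_sub]; exact Dvd.dvd.mul_left d1' 2),
        r3.congr (by rw [← mul_sub]; exact Dvd.dvd.mul_left d1' 3)⟩] at e1
      rw [hc, if_neg fun h => h4 (h.2.1.congr (by
        have e : 2 * y2 - 4 * a = 2 * (y2 - 2 * a) := by ring
        rw [e]
        exact Dvd.dvd.mul_left d2 2))] at e2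
      rw [← e2] at e1
      revert e1
      decide
  · -- `n = 2`
    subst hn
    obtain ⟨c, hc⟩ : ∃ c : ℤ → Fin 3, ∀ y, c y = c3 N (y % N).toNat := ⟨_, fun _ => rfl⟩
    obtain ⟨a, k, ha⟩ := exists_res hx hN hper c (H c)
    obtain ⟨r1, y1, d1, e1⟩ := ha 1 le_rfl (by omega)
    obtain ⟨r2, y2, d2, e2⟩ := ha 2 (by omega) (by omega)
    rw [hc, hcong _ _ d1] at e1
    rw [hc, hcong _ _ d2] at e2
    have p1 := hpos (by omega) _ r1
    have p2 := hpos (by omega) _ r2
    push_cast at e1 e2 p1 p2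
    rw [one_mul] at e1 p1
    rw [hdbl] at e2 p2
    exact c3_ne (Nat.pos_of_ne_zero p1) (hlt a) p2 (e1.trans e2.symm)

/-- **Eventually periodic sequences.** For `n, t ≥ 2` there is a strictly increasing sequence `x` of
integers whose set of terms `X` is eventually periodic (there are `N > 0` and `M` such that for all
`y ≥ M` the number `y` is in `X` if and only if `y + N` is), which is `(n + 1)`-subsum-free and
`(n, t)`-Ramsey, if and only if `n = 2` and `t = 2`. -/
theorem result (n t : ℕ) (hn : 2 ≤ n) (ht : 2 ≤ t) :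
    (∃ x : ℕ → ℤ, StrictMono x ∧
      (∃ (N : ℕ) (M : ℤ), 0 < N ∧
        ∀ y : ℤ, M ≤ y → (y ∈ Set.range x ↔ y + N ∈ Set.range x)) ∧
      (∀ s : Finset ℕ, s.card = n + 1 →
        ∃ r ⊆ s, r.Nonempty ∧ (∑ i ∈ r, x i) ∉ Set.range x) ∧
      ∀ c : ℤ → Fin t, ∃ u : ℕ → ℕ, StrictMono u ∧ ∃ k : Fin t,
        ∀ s : Finset ℕ, s.Nonempty → s.card ≤ n →
          (∑ l ∈ s, x (u l)) ∈ Set.range x ∧ c (∑ l ∈ s, x (u l)) = k) ↔
    n = 2 ∧ t = 2 := by
  constructor
  · rintro ⟨x, hx, ⟨N, M, hN, hper⟩, hfree, hR⟩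
    obtain ⟨m1, m2⟩ := main x hx N hN M hper n hfree
    have red : ∀ t' : ℕ, t' ≤ t → ∀ c : ℤ → Fin t', ∃ u : ℕ → ℕ, StrictMono u ∧ ∃ k : Fin t',
        ∀ s : Finset ℕ, s.Nonempty → s.card ≤ n →
          (∑ l ∈ s, x (u l)) ∈ Set.range x ∧ c (∑ l ∈ s, x (u l)) = k := by
      intro t' ht' c
      obtain ⟨u, hu, k, hk⟩ := hR fun y => Fin.castLE ht' (c y)
      refine ⟨u, hu, c (∑ l ∈ {0}, x (u l)), fun s h1 h2 => ⟨(hk s h1 h2).1, ?_⟩⟩
      have h3 := (hk s h1 h2).2
      have h4 := (hk {0} (Finset.singleton_nonempty 0) (by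
        rw [Finset.card_singleton]
        omega)).2
      exact Fin.castLE_injective ht' (h3.trans h4.symm)
    by_cases h : n = 2
    · refine ⟨h, ?_⟩
      by_contra h'
      subst h
      exact m2 rfl (red 3 (by omega))
    · exact absurd (red 2 ht) (m1 (by omega))
  · rintro ⟨rfl, rfl⟩
    obtain ⟨x, hx, hr, h1, h2⟩ := Pool.Agent.Results.MP_abb0cc_co.PairsModSeven.result
    refine ⟨x, hx, ⟨7, 1, by norm_num, fun y hy => ?_⟩, h1, h2⟩
    rw [hr]
    simp only [Set.mem_ofPred_eq]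
    omega

end Pool.Agent.Results.MP_abb0cc_co.PeriodicSets
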