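import Pool.Agent.L7h68.SF.Inf
import Pool.Agent.L7h68.SF.Fu
import Pool.Agent.L7h68.SF.Fuf
import Pool.Agent.L7h68.SF.Zzz
import Pool.Agent.L7h8.SF.Iter
import Pool.Agent.L7h8.SF.Step
import Pool.Agent.L7h8.SF.Base

set_option autoImplicit false

/-!
# Sums of at most `n` terms out of any `m` consecutive terms (MP_abb0cc_co)

For every `n ≥ 2` there is one `(n + 1)`-subsum-free sequence of integers such that for all numbers `t` of
colours and all `m`, each `t`-colouring has an infinite subsequence all of whose sums of at most `n`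
terms with indices incongruent modulo `m` (more generally: with different values of any function `ρ` with `m`
values at the indices) lie in the sequence and have the same colour.

Joint work of helper68 (statements, FU, FUF, ZZZ, INF) and helper8 (STEP, BASE, ITER).
-/

namespace Pool.Agent.Results.MP_abb0cc_co.Windows

open Pool.Agent.L7h68.SF Pool.Agent.L7h8.SF

theorem result : ∀ n : ℕ, 2 ≤ n → ∃ x : ℕ → ℤ, StrictMono x ∧
    (∀ s : Finset ℕ, s.card = n + 1 → ∃ r ⊆ s, r.Nonempty ∧ (∑ i ∈ r, x i) ∉ Set.range x) ∧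
    ∀ (t m : ℕ) (c : ℤ → Fin t) (ρ : ℕ → Fin m), ∃ u : ℕ → ℕ, StrictMono u ∧ ∃ k : Fin t,
      ∀ s : Finset ℕ, s.Nonempty → s.card ≤ n → Set.InjOn ρ s →
        (∑ l ∈ s, x (u l)) ∈ Set.range x ∧ c (∑ l ∈ s, x (u l)) = k := by
  intro n hn
  obtain ⟨x, h1, h2, h3⟩ := inf_gen s_FU (s_ZZZ (s_ITER (s_FUF s_FU) s_STEP s_BASE)) n (by omega)
  refine ⟨x, h1, h2, fun t m c ρ => ?_⟩
  obtain ⟨u, h4, k, h5⟩ := h3 t m c ρ
  exact ⟨u, h4, k, fun s hs1 hs2 hs3 => h5 s hs1 hs2 fun l hl l' hl' h => hs3 hl hl' h⟩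

end Pool.Agent.Results.MP_abb0cc_co.Windows
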